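import Mathlib

set_option autoImplicit false

namespace Pool.Agent.Results.MP_48b6db_an.SuperDeltaRay

/-- `x` is a super Delta-point: for every weakly open `U` containing `x`, the supremum of
`‖x - y‖` over `y` in the closed unit ball and in `U` is `1 + ‖x‖`. -/
def SuperDelta (𝕜 : Type) {X : Type} [RCLike 𝕜] [NormedAddCommGroup X] [NormedSpace 𝕜 X]
    (x : X) : Prop :=
  ∀ U : Set (WeakSpace 𝕜 X), IsOpen U → toWeakSpace 𝕜 X x ∈ U →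
    IsLUB {d : ℝ | ∃ y : X, ‖y‖ ≤ 1 ∧ toWeakSpace 𝕜 X y ∈ U ∧ d = ‖x - y‖} (1 + ‖x‖)

theorem result (𝕜 X : Type) [RCLike 𝕜] [NormedAddCommGroup X] [NormedSpace 𝕜 X]
    [CompleteSpace X] (x : X) (hx : ‖x‖ = 1) (h : SuperDelta 𝕜 x) (r : ℝ) (h0 : 0 < r)
    (h1 : r < 1) : SuperDelta 𝕜 ((r : 𝕜) • x) := by
  intro U hU hxU
  have nr : ∀ (t : ℝ) (v : X), 0 ≤ t → ‖(t : 𝕜) • v‖ = t * ‖v‖ := fun t v ht => by
    rw [norm_smul, RCLike.norm_ofReal, abs_of_nonneg ht]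
  let g : WeakSpace 𝕜 X → WeakSpace 𝕜 X := fun y =>
    (((1 + r) / 2 : ℝ) : 𝕜) • y - (((1 - r) / 2 : ℝ) : 𝕜) • toWeakSpace 𝕜 X x
  have hg : ∀ y : X, g (toWeakSpace 𝕜 X y) = toWeakSpace 𝕜 X
      ((((1 + r) / 2 : ℝ) : 𝕜) • y - (((1 - r) / 2 : ℝ) : 𝕜) • x) := fun y => by simp [g]
  have e : (((1 + r) / 2 : ℝ) : 𝕜) • x - (((1 - r) / 2 : ℝ) : 𝕜) • x = (r : 𝕜) • x := by
    rw [← sub_smul, ← RCLike.ofReal_sub]; congr 2; ring
  have H := h (g ⁻¹' U) (hU.preimage (by fun_prop)) (by rw [Set.mem_preimage, hg, e]; exact hxU)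
  rw [nr r x h0.le, hx, mul_one]
  refine ⟨?_, fun b hb => ?_⟩
  · rintro _ ⟨y, hy, -, rfl⟩
    refine (norm_sub_le _ _).trans ?_
    rw [nr r x h0.le, hx]; linarith
  · have : 1 + ‖x‖ ≤ b / ((1 + r) / 2) := by
      refine H.2 ?_
      rintro _ ⟨y, hy, hyU, rfl⟩
      rw [le_div_iff₀ (by linarith), mul_comm, ← nr _ _ (by linarith)]
      refine hb ⟨_, (norm_sub_le _ _).trans ?_, by rw [← hg]; exact hyU, ?_⟩
      · rw [nr _ _ (by linarith), nr _ _ (by linarith), hx]; nlinarith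
      · rw [← e, smul_sub]; congr 1; abel
    rw [le_div_iff₀ (by linarith), hx] at this
    linarith

end Pool.Agent.Results.MP_48b6db_an.SuperDeltaRay
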